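import Pool.Agent.R569.RPO.Final

/-!
# The existential theory of the recursive path ordering is undecidable for partial precedences

The definitions (signatures with precedence and status, ground terms, `≈`, the recursive path
ordering, existential sentences and their Goedel numbers) are in `Pool.Agent.R569.RPO.Defs`.

Idea of the proof. On the terms built from a minimal constant `c` with two minimal symbols `f, g`, in
the form `f(c, …, c, t)` and `g(c, …, c, t)`, the ordering is the scattered subword ordering on words
over two letters, and everything below such a term is again such a term; all other terms are at least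
as large as one of finitely many terms that are not of this form, so that the set of these terms is
definable by a quantifier-free formula. With left multiplication by letters and the subword ordering,
addition and multiplication of the lengths of the words `f^n(c)` are existentially definable, so the
theorem of Davis, Putnam, Robinson and Matiyasevich applies.
-/

set_option autoImplicit false

namespace Pool.Agent.Results.MP_18cdfa_lc.PartialPrecedence

open Pool.Agent.R569.RPO

/-- The hypothesis on the signature, the precedence and the status: there are a constant `c`, minimal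
for the precedence, and two different function symbols `f`, `g` of positive arity, each of which is
unary or has status lex, such that no symbol other than `c` is smaller than `f` or smaller than `g`.
(So `f` and `g` are incomparable.) -/
def TwoMinimal (S : Data) : Prop :=
  ∃ c f g : Fin S.n, S.ar c = 0 ∧ (∀ h, ¬ S.prec c h) ∧ f ≠ g ∧ 0 < S.ar f ∧ 0 < S.ar g ∧
    (S.lex f = true ∨ S.ar f = 1) ∧ (S.lex g = true ∨ S.ar g = 1) ∧
    (∀ h, S.prec f h → h = c) ∧ ∀ h, S.prec g h → h = c

/-- The signature with a constant `0` and two unary symbols `1` (status lex) and `2` (status mul);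
both are larger than `0` and they are incomparable. -/
def threeSymbols : Data where
  n := 3
  ar := ![0, 1, 1]
  hconst := ⟨0, rfl⟩
  prec f g := f ≠ 0 ∧ g = 0
  irrefl := by
    rintro f ⟨h1, h2⟩
    exact h1 h2
  trans := by
    rintro f g h ⟨h1, -⟩ ⟨-, h2⟩
    exact ⟨h1, h2⟩
  lex := ![true, true, false]

/-- The same signature and status, with the empty precedence. -/
def threeSymbolsEmpty : Data where
  n := 3
  ar := ![0, 1, 1]
  hconst := ⟨0, rfl⟩
  prec _ _ := False
  irrefl _ h := h
  trans _ _ _ h _ := h
  lex := ![true, true, false]

/-- **The existential theory of the recursive path ordering with a partial precedence is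
undecidable.** Let `E` be the notion of equality used in lexicographic comparisons, a reflexive
relation contained in `≈` (the usual choices are `≈` and `=`).
(1) For every finite signature, every precedence and every status function satisfying `TwoMinimal`,
every recursively enumerable set is many-one reducible to the existential fragment of the theory of
`T(F)` with the recursive path ordering; in particular this fragment is undecidable.
(2) `TwoMinimal` is satisfied by a signature with one constant and two incomparable unary symbols,
both for the empty precedence and for the precedence in which the constant is the smallest symbol. -/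
theorem result :
    (∀ S : Data, TwoMinimal S → ∀ E : Tm S → Tm S → Prop, (∀ s, E s s) →
      (∀ s t, E s t → Eqv s t) →
      (∀ W : ℕ → Prop, REPred W → ∃ φ : ℕ → QF S, (Computable fun n => (φ n).code) ∧
        ∀ n, W n ↔ (φ n).ExTrue E) ∧
      ¬ ExDecidable S E) ∧
    TwoMinimal threeSymbols ∧ ¬ ExDecidable threeSymbols Eqv ∧ ¬ ExDecidable threeSymbols Eq ∧
    TwoMinimal threeSymbolsEmpty ∧ ¬ ExDecidable threeSymbolsEmpty Eqv ∧
    ¬ ExDecidable threeSymbolsEmpty Eq := by
  have key : ∀ S : Data, TwoMinimal S → Nonempty (Setup S) := by
    rintro S ⟨c, f, g, hc, hcm, hfg, hf, hg, hfs, hgs, hfm, hgm⟩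
    refine ⟨⟨c, fun x => if x then f else g, hc, hcm, by simpa using hfg, ?_, ?_, ?_⟩⟩
    · intro x; cases x <;> simpa
    · intro x; cases x <;> simpa
    · intro x h; cases x <;> simp only [Bool.false_eq_true, if_true, if_false]
      · exact hgm h
      · exact hfm h
  have main : ∀ S : Data, TwoMinimal S → ∀ E : Tm S → Tm S → Prop, (∀ s, E s s) →
      (∀ s t, E s t → Eqv s t) →
      (∀ W : ℕ → Prop, REPred W → ∃ φ : ℕ → QF S, (Computable fun n => (φ n).code) ∧
        ∀ n, W n ↔ (φ n).ExTrue E) ∧
      ¬ ExDecidable S E := by
    intro S hS E hE1 hE2
    obtain ⟨T⟩ := key S hS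
    exact ⟨fun W hW => T.reduction E hE1 hE2 hW, T.undecidable E hE1 hE2⟩
  have h1 : TwoMinimal threeSymbols :=
    ⟨(0 : Fin 3), (1 : Fin 3), (2 : Fin 3), rfl, fun h hh => hh.1 rfl, (by decide : (1 : Fin 3) ≠ 2),
      Nat.one_pos, Nat.one_pos, Or.inl rfl, Or.inr rfl, fun h hh => hh.2, fun h hh => hh.2⟩
  have h2 : TwoMinimal threeSymbolsEmpty :=
    ⟨(0 : Fin 3), (1 : Fin 3), (2 : Fin 3), rfl, fun h hh => hh, (by decide : (1 : Fin 3) ≠ 2),
      Nat.one_pos, Nat.one_pos, Or.inl rfl, Or.inr rfl, fun h hh => hh.elim, fun h hh => hh.elim⟩
  have hEq : ∀ (S : Data) (s t : Tm S), s = t → Eqv s t := by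
    rintro S s t rfl
    exact Eqv.refl s
  exact ⟨main, h1, (main _ h1 _ Eqv.refl fun _ _ h => h).2,
    (main _ h1 _ (fun _ => rfl) (hEq _)).2, h2, (main _ h2 _ Eqv.refl fun _ _ h => h).2,
    (main _ h2 _ (fun _ => rfl) (hEq _)).2⟩

end Pool.Agent.Results.MP_18cdfa_lc.PartialPrecedence
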